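import Pool.Agent.R248.Ritt.Trans

/-!
Every symmetric probability measure on the integers that is non-increasing on the natural numbers
is Ritt, with a universal constant.
-/

set_option autoImplicit false

namespace Pool.Agent.Results.MP_e7950b_an.RittUniversal

/-- Convolution of two functions on the integers. -/
noncomputable def conv (f g : ℤ → ℝ) (k : ℤ) : ℝ := ∑' j : ℤ, f j * g (k - j)

/-- Convolution powers; the zeroth power is the unit mass at the origin. -/
noncomputable def convPow (μ : ℤ → ℝ) : ℕ → ℤ → ℝ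
  | 0 => fun k => if k = 0 then 1 else 0
  | n + 1 => conv μ (convPow μ n)

lemma convPow_eq (μ : ℤ → ℝ) (n : ℕ) : convPow μ n = Pool.Agent.R248.Ritt.cvPow μ n := by
  induction n with
  | zero => rfl
  | succ n ih =>
    show conv μ (convPow μ n) = Pool.Agent.R248.Ritt.cv μ (Pool.Agent.R248.Ritt.cvPow μ n)
    rw [ih]
    rfl

/-- A symmetric probability measure on the integers which is non-increasing on the natural numbers
satisfies `n * ‖μ^n - μ^(n+1)‖₁ ≤ 34` for all `n ≥ 1`. -/
theorem result (μ : ℤ → ℝ) (hnonneg : ∀ k, 0 ≤ μ k) (hsum : HasSum μ 1)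
    (hsymm : ∀ k, μ (-k) = μ k) (hanti : ∀ n : ℕ, μ ((n : ℤ) + 1) ≤ μ (n : ℤ)) :
    ∀ n : ℕ, 1 ≤ n →
      Summable (fun k : ℤ => |convPow μ n k - convPow μ (n + 1) k|) ∧
      (n : ℝ) * ∑' k : ℤ, |convPow μ n k - convPow μ (n + 1) k| ≤ 34 := by
  intro n hn
  rw [convPow_eq, convPow_eq]
  exact Pool.Agent.R248.Ritt.ritt_bound hnonneg hsum hsymm hanti n hn

end Pool.Agent.Results.MP_e7950b_an.RittUniversal
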