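import Mathlib
import Pool.Agent.R434.RittC

/-!
Every symmetric probability measure on the integers which is non-increasing on the natural numbers
is Ritt on `ℓ¹(ℤ)`.
-/

set_option autoImplicit false

namespace Pool.Agent.Results.MP_e7950b_an.SymmetricUnimodalRitt

open Filter Topology
open Pool.Agent.R434.Ritt

/-- The `n`-fold convolution power of `μ : ℤ → ℝ`; the `0`-th power is the unit mass at `0`. -/
noncomputable def convPow (μ : ℤ → ℝ) : ℕ → ℤ → ℝ
  | 0 => fun x => if x = 0 then 1 else 0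
  | n + 1 => fun x => ∑' y : ℤ, μ y * convPow μ n (x - y)

/-- `μ` is Ritt with constant `C`: for all `n`, the difference `μ^{*n} - μ^{*(n+1)}` is in `ℓ¹(ℤ)`
and `n` times its `ℓ¹` norm is at most `C`. -/
def IsRittWith (C : ℝ) (μ : ℤ → ℝ) : Prop :=
  ∀ n : ℕ, Summable (fun x : ℤ => |convPow μ n x - convPow μ (n + 1) x|) ∧
    (n : ℝ) * ∑' x : ℤ, |convPow μ n x - convPow μ (n + 1) x| ≤ C

section approx

variable {μ : ℤ → ℝ} (h0 : ∀ x, 0 ≤ μ x) (h1 : HasSum μ 1) (hs : ∀ x, μ (-x) = μ x)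
  (ha : ∀ n : ℕ, μ (n + 1) ≤ μ n)

/-- the truncation with the missing mass put at zero -/
noncomputable def tr (μ : ℤ → ℝ) (K : ℕ) : L :=
  ∑ i ∈ Finset.Icc (-(K : ℤ)) K, μ i • T i + (1 - ∑ i ∈ Finset.Icc (-(K : ℤ)) K, μ i) • T 0

lemma tr_coeff (K : ℕ) (x : ℤ) : (tr μ K).coeff x = (if |x| ≤ (K : ℤ) then μ x else 0) +
    (if x = 0 then 1 - ∑ i ∈ Finset.Icc (-(K : ℤ)) K, μ i else 0) := by
  unfold tr
  rw [AddMonoidAlgebra.coeff_add, Finsupp.add_apply, AddMonoidAlgebra.coeff_sum,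
    Finsupp.finsetSum_apply]
  simp only [AddMonoidAlgebra.coeff_smul_apply, T_coeff, smul_eq_mul, mul_ite, mul_one, mul_zero]
  congr 1
  · rw [Finset.sum_ite_eq']
    simp only [Finset.mem_Icc, abs_le]
  · simp only [eq_comm]

include h0 h1 in
lemma miss_nonneg (K : ℕ) : 0 ≤ 1 - ∑ i ∈ Finset.Icc (-(K : ℤ)) K, μ i := by
  have := sum_le_hasSum (Finset.Icc (-(K : ℤ)) K) (fun i _ => h0 i) h1
  linarith

include hs ha in
lemma mono {x y : ℤ} (h : |x| ≤ |y|) : μ y ≤ μ x := by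
  have habs : ∀ z : ℤ, μ z = μ |z| := by
    intro z
    rcases abs_choice z with h | h
    · rw [h]
    · rw [h, hs]
  have hm : ∀ a b : ℕ, μ ((a + b : ℕ) : ℤ) ≤ μ (a : ℤ) := by
    intro a b
    induction b with
    | zero => simp
    | succ b ih =>
      refine le_trans ?_ ih
      have := ha (a + b)
      push_cast at this ⊢
      rwa [← add_assoc]
  rw [habs x, habs y]
  obtain ⟨a, hx⟩ := Int.eq_ofNat_of_zero_le (abs_nonneg x)
  obtain ⟨c, hy⟩ := Int.eq_ofNat_of_zero_le (abs_nonneg y)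
  rw [hx, hy] at h ⊢
  have hac : a ≤ c := by exact_mod_cast h
  obtain ⟨b, rfl⟩ := Nat.exists_eq_add_of_le hac
  exact hm a b

include h0 h1 hs ha in
lemma tr_Uni (K : ℕ) : Uni (tr μ K) := by
  intro x y hxy
  rw [tr_coeff, tr_coeff]
  have hm := mono hs ha hxy
  have hmiss := miss_nonneg h0 h1 K
  refine add_le_add ?_ ?_
  · split_ifs with h2 h3 h3
    · exact hm
    · omega
    · exact h0 x
    · exact le_rfl
  · split_ifs with h2 h3 h3
    · exact le_rfl
    · exfalso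
      subst h2
      rw [abs_zero] at hxy
      exact h3 (abs_nonpos_iff.1 hxy)
    · exact hmiss
    · exact le_rfl

lemma tr_mass (K : ℕ) : ∑' x : ℤ, (tr μ K).coeff x = 1 := by
  have h2 : ∑' x : ℤ, (tr μ K).coeff x =
      ∑ x ∈ Finset.Icc (-(K : ℤ)) K, (tr μ K).coeff x := by
    refine tsum_eq_sum fun x hx => ?_
    rw [tr_coeff, if_neg, if_neg, add_zero]
    · rintro rfl
      exact hx (Finset.mem_Icc.2 ⟨by omega, by omega⟩)
    · intro h
      exact hx (Finset.mem_Icc.2 (abs_le.1 h))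
  rw [h2]
  simp only [tr_coeff]
  rw [Finset.sum_add_distrib, Finset.sum_ite_eq']
  rw [if_pos (Finset.mem_Icc.2 ⟨by omega, by omega⟩)]
  have h3 : ∑ x ∈ Finset.Icc (-(K : ℤ)) K, (if |x| ≤ (K : ℤ) then μ x else 0) =
      ∑ x ∈ Finset.Icc (-(K : ℤ)) K, μ x := by
    refine Finset.sum_congr rfl fun x hx => ?_
    rw [if_pos (abs_le.2 (Finset.mem_Icc.1 hx))]
  rw [h3]
  ring

include h0 in
lemma tr_le (K : ℕ) (x : ℤ) : (tr μ K).coeff x ≤ μ x + (if x = 0 then 1 else 0) := by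
  rw [tr_coeff]
  refine add_le_add ?_ ?_
  · split_ifs
    · exact le_rfl
    · exact h0 x
  · split_ifs
    · have := Finset.sum_nonneg fun i (_ : i ∈ Finset.Icc (-(K : ℤ)) K) => h0 i
      linarith
    · exact le_rfl

lemma tendsto_Icc : Tendsto (fun K : ℕ => Finset.Icc (-(K : ℤ)) K) atTop atTop := by
  refine tendsto_atTop_finset_of_monotone (fun a b hab x hx => ?_) fun x => ⟨x.natAbs, ?_⟩
  · rw [Finset.mem_Icc] at hx ⊢
    have : (a : ℤ) ≤ b := by exact_mod_cast hab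
    constructor <;> omega
  · rw [Finset.mem_Icc]
    constructor <;> omega

include h1 in
lemma tr_tendsto (x : ℤ) : Tendsto (fun K : ℕ => (tr μ K).coeff x) atTop (𝓝 (μ x)) := by
  simp only [tr_coeff]
  have h2 : Tendsto (fun K : ℕ => if |x| ≤ (K : ℤ) then μ x else 0) atTop (𝓝 (μ x)) := by
    refine tendsto_const_nhds.congr' ?_
    filter_upwards [eventually_ge_atTop x.natAbs] with K hK
    rw [if_pos]
    rw [← Int.natCast_natAbs]
    exact_mod_cast hK
  have h3 : Tendsto (fun K : ℕ => 1 - ∑ i ∈ Finset.Icc (-(K : ℤ)) K, μ i) atTop (𝓝 (1 - 1)) :=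
    tendsto_const_nhds.sub (h1.comp tendsto_Icc)
  have h4 : Tendsto (fun K : ℕ => if x = 0 then 1 - ∑ i ∈ Finset.Icc (-(K : ℤ)) K, μ i else 0)
      atTop (𝓝 0) := by
    split_ifs
    · rw [sub_self] at h3
      exact h3
    · exact tendsto_const_nhds
  simpa using h2.add h4

lemma coeff_pow_succ (f : L) (n : ℕ) (x : ℤ) :
    (f ^ (n + 1)).coeff x = ∑' y : ℤ, f.coeff y * (f ^ n).coeff (x - y) := by
  have h2 : ∑' y : ℤ, f.coeff y * (f ^ n).coeff (x - y) =
      ∑ y ∈ f.coeff.support, f.coeff y * (f ^ n).coeff (x - y) := by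
    refine tsum_eq_sum fun y hy => ?_
    have : f.coeff y = 0 := by simpa using hy
    rw [this, zero_mul]
  rw [h2, pow_succ']
  have h3 : f * f ^ n = ∑ i ∈ f.coeff.support, f.coeff i • (T i * f ^ n) := by
    have h4 : f * f ^ n = (∑ i ∈ f.coeff.support, f.coeff i • T i) * f ^ n := by
      rw [← eq_sum f]
    rw [h4, Finset.sum_mul]
    exact Finset.sum_congr rfl fun i _ => smul_mul_assoc _ _ _
  rw [h3, AddMonoidAlgebra.coeff_sum, Finsupp.finsetSum_apply]
  refine Finset.sum_congr rfl fun i _ => ?_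
  rw [AddMonoidAlgebra.coeff_smul_apply, T_mul_coeff, smul_eq_mul]

include h0 h1 hs ha in
lemma N1_tr_pow (K n : ℕ) : N1 (tr μ K ^ n) ≤ 1 := by
  have hm : N1 (tr μ K) = 1 := by
    rw [N1_of_nonneg (tr_Uni h0 h1 hs ha K).nonneg, tr_mass]
  induction n with
  | zero => rw [pow_zero, N1_one]
  | succ n ih =>
    rw [pow_succ]
    refine (N1_mul _ _).trans ?_
    rw [hm, mul_one]
    exact ih

lemma coeff_le_N1 (f : L) (x : ℤ) : |f.coeff x| ≤ N1 f :=
  (summ_abs f).le_tsum x fun _ _ => abs_nonneg _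

include h0 h1 hs ha in
lemma pow_tendsto (n : ℕ) (x : ℤ) :
    Tendsto (fun K : ℕ => (tr μ K ^ n).coeff x) atTop (𝓝 (convPow μ n x)) := by
  induction n generalizing x with
  | zero =>
    refine tendsto_const_nhds.congr fun K => ?_
    rw [pow_zero, ← T_zero, T_coeff]
    simp only [convPow, eq_comm]
  | succ n ih =>
    simp only [coeff_pow_succ, convPow]
    refine tendsto_tsum_of_dominated_convergence
      (bound := fun y => μ y + (if y = 0 then 1 else 0)) ?_ ?_ ?_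
    · refine h1.summable.add ?_
      exact summable_of_ne_finset_zero (s := {0}) fun y hy => by
        rw [if_neg (by simpa using hy)]
    · intro y
      exact (tr_tendsto h1 y).mul (ih (x - y))
    · refine Eventually.of_forall fun K y => ?_
      rw [Real.norm_eq_abs, abs_mul, abs_of_nonneg ((tr_Uni h0 h1 hs ha K).nonneg y)]
      have h2 := (coeff_le_N1 (tr μ K ^ n) (x - y)).trans (N1_tr_pow h0 h1 hs ha K n)
      have h3 := tr_le h0 K y
      have h4 := (tr_Uni h0 h1 hs ha K).nonneg y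
      calc (tr μ K).coeff y * |(tr μ K ^ n).coeff (x - y)| ≤ (tr μ K).coeff y * 1 :=
            mul_le_mul_of_nonneg_left h2 h4
        _ ≤ _ := by rw [mul_one]; exact h3

include h0 h1 hs ha in
lemma finite_sum_bound (n : ℕ) (c : ℝ) (hc : ∀ K, N1 (tr μ K ^ n - tr μ K ^ (n + 1)) ≤ c)
    (s : Finset ℤ) : ∑ x ∈ s, |convPow μ n x - convPow μ (n + 1) x| ≤ c := by
  have h2 : Tendsto (fun K : ℕ => ∑ x ∈ s, |(tr μ K ^ n - tr μ K ^ (n + 1)).coeff x|) atTop
      (𝓝 (∑ x ∈ s, |convPow μ n x - convPow μ (n + 1) x|)) := by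
    refine tendsto_finsetSum _ fun x _ => ?_
    simp only [AddMonoidAlgebra.coeff_sub, Finsupp.sub_apply]
    exact ((pow_tendsto h0 h1 hs ha n x).sub (pow_tendsto h0 h1 hs ha (n + 1) x)).abs
  refine le_of_tendsto' h2 fun K => ?_
  exact ((summ_abs _).sum_le_tsum s fun _ _ => abs_nonneg _).trans (hc K)

end approx

/-- Every symmetric probability measure on `ℤ` that is non-increasing on `ℕ` is Ritt, with one
constant for all of them. -/
theorem result : ∃ C : ℝ, ∀ μ : ℤ → ℝ, (∀ x, 0 ≤ μ x) → HasSum μ 1 → (∀ x, μ (-x) = μ x) →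
    (∀ n : ℕ, μ (n + 1) ≤ μ n) → IsRittWith C μ := by
  refine ⟨12000, fun μ h0 h1 hs ha n => ?_⟩
  have hb2 : ∀ K, N1 (tr μ K ^ n - tr μ K ^ (n + 1)) ≤ 2 := by
    intro K
    have h2 := N1_add (tr μ K ^ n) (-(tr μ K ^ (n + 1)))
    rw [N1_neg, ← sub_eq_add_neg] at h2
    have h3 := N1_tr_pow h0 h1 hs ha K n
    have h4 := N1_tr_pow h0 h1 hs ha K (n + 1)
    linarith
  have hsum : Summable (fun x : ℤ => |convPow μ n x - convPow μ (n + 1) x|) :=
    summable_of_sum_le (fun _ => abs_nonneg _) (finite_sum_bound h0 h1 hs ha n 2 hb2)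
  refine ⟨hsum, ?_⟩
  rcases Nat.eq_zero_or_pos n with h | h
  · rw [h]
    norm_num
  · have hn : (0 : ℝ) < n := by exact_mod_cast h
    have h2 : ∀ K, N1 (tr μ K ^ n - tr μ K ^ (n + 1)) ≤ 12000 / n := by
      intro K
      rw [le_div_iff₀ hn, mul_comm]
      exact main_fin (tr_Uni h0 h1 hs ha K) (tr_mass K) n
    have h3 : ∑' x : ℤ, |convPow μ n x - convPow μ (n + 1) x| ≤ 12000 / n :=
      hsum.tsum_le_of_sum_le (finite_sum_bound h0 h1 hs ha n _ h2)
    calc (n : ℝ) * ∑' x : ℤ, |convPow μ n x - convPow μ (n + 1) x| ≤ n * (12000 / n) :=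
          mul_le_mul_of_nonneg_left h3 hn.le
      _ = 12000 := by field_simp

end Pool.Agent.Results.MP_e7950b_an.SymmetricUnimodalRitt
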